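import Pool.Agent.Helper13.RG.Stmts

set_option autoImplicit false

open scoped Classical

namespace Pool.Agent.Helper77.RG

open Pool.Agent.Helper14.BSC Pool.Agent.Helper13.ZL Pool.Agent.Helper13.RG

theorem st_UNE (hD : ST_DLIB) (hV : ST_VEMB) (hP : ST_PEX) (hN : ST_NUL) : ST_UNE := by
  intro k Ω _ _ _ _ _ D' hNG
  obtain ⟨-, hINF, hZVL, -⟩ := hN k Ω D' hNG
  obtain ⟨hsub, hun, -, huniv⟩ := hD k
  have key : ∀ x y : LL D', ¬ Null {v : Pl k | ∃ (p : ℕ) (_ : Fact p.Prime) (σ : k →+* ℂ_[p])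
      (P : Place D' p σ) (hx : x ∈ P.C) (hy : y ∈ P.C), OverPl v σ ∧ P.φ ⟨x, hx⟩ = P.φ ⟨y, hy⟩} →
      x = y := by
    intro x y hnull
    by_contra hxy
    apply hnull
    apply hsub (ZVL D' (x - y)) _ ?_ (hZVL _ (sub_ne_zero.2 hxy))
    rintro v ⟨p, hp, σ, P, hx, hy, hov, he⟩
    refine ⟨p, hp, σ, P, sub_mem hx hy, hov, ?_⟩
    have h1 : (⟨x - y, sub_mem hx hy⟩ : P.C) = ⟨x, hx⟩ - ⟨y, hy⟩ := rfl
    rw [h1, map_sub, he, sub_self]
  have key2 : ∀ y y' : LL D', (∀ (v : Pl k) (p : ℕ) (_ : Fact p.Prime) (σ : k →+* ℂ_[p])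
      (P : Place D' p σ), OverPl v σ → ∀ hy : y ∈ P.C, ∃ hy' : y' ∈ P.C,
        P.φ ⟨y, hy⟩ = P.φ ⟨y', hy'⟩) → y = y' := by
    intro y y' h
    apply key y y'
    intro hnull
    apply huniv
    refine hsub _ _ ?_ (hun _ _ (hINF y) hnull)
    intro v _
    obtain ⟨p, hp, σ, E0, hov, -, -⟩ := hV k v
    obtain ⟨P⟩ := hP k Ω D' p σ
    by_cases hy : y ∈ P.C
    · right
      obtain ⟨hy', he⟩ := h v p hp σ P hov hy
      exact ⟨p, hp, σ, P, hy, hy', hov, he⟩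
    · left
      exact ⟨p, hp, σ, P, hov, hy⟩
  refine ⟨key, ?_, ?_⟩
  · intro D x y y' h h'
    apply key2
    intro v p hp σ P' _ hy
    obtain ⟨P⟩ := hP k Ω D p σ
    obtain ⟨h1, h2⟩ := h p σ P P'
    obtain ⟨h3, h4⟩ := h' p σ P P'
    have hx := h1.2 hy
    have hy' := h3.1 hx
    exact ⟨hy', (h2 hx hy).symm.trans (h4 hx hy')⟩
  · intro D x y y' h h'
    apply key2
    intro v p hp σ P' _ hy
    obtain ⟨P⟩ := hP k Ω D p σ
    obtain ⟨h1, h2⟩ := h p σ P' P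
    obtain ⟨h3, h4⟩ := h' p σ P' P
    have hx := h1.1 hy
    have hy' := h3.2 hx
    exact ⟨hy', (h2 hy hx).trans (h4 hy' hx).symm⟩

end Pool.Agent.Helper77.RG
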