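import Pool.Agent.Helper67.RG.GBasic

/-!
# REL: ten quadratic relations
-/

namespace Pool.Agent.Helper77.RG

open Pool.Agent.Helper67.RG MvPolynomial

theorem cardJ : Fintype.card J = 78 := by decide

/-- elements of `I • N`, seen in `N` -/
theorem mem_smul_top {A M : Type} [CommRing A] [AddCommGroup M] [Module A M] {I : Ideal A}
    {N : Submodule A M} {x : M} (hx : x ∈ N) (h : x ∈ I • N) :
    (⟨x, hx⟩ : N) ∈ I • (⊤ : Submodule A N) := by
  have h1 : Submodule.map N.subtype (I • (⊤ : Submodule A N)) = I • N := by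
    rw [Submodule.map_smul'', Submodule.map_subtype_top]
  rw [← h1] at h
  obtain ⟨y, hy, hyx⟩ := h
  have : y = ⟨x, hx⟩ := Subtype.ext hyx
  rwa [← this]

section

variable {g d : ℕ} {A : Type} [CommRing A] [Algebra ℂ A]

/-- the free module `A^J` with its fibres -/
noncomputable def fmJ (A : Type) [CommRing A] [Algebra ℂ A] : FM A (J → A) where
  V _ := J → ℂ
  pi b :=
    { toFun := fun c p => b (c p)
      map_zero' := by funext p; simp
      map_add' := fun c c' => by funext p; simp }
  pi_smul b a c := by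
    funext p
    simp
  surj b := by
    intro v
    refine ⟨fun p => algebraMap ℂ A (v p), ?_⟩
    funext p
    simp
  ker b c h := by
    have h1 : c = ∑ p, c p • (Pi.single p 1 : J → A) := by
      funext q
      simp [Finset.sum_apply, Pi.single_apply]
    rw [h1]
    refine Submodule.sum_mem _ (fun p _ => Submodule.smul_mem_smul ?_ Submodule.mem_top)
    exact congrFun h p

/-- the graded pieces with their fibres -/
noncomputable def fmG (F : Family g d A) (m : ℕ) (hm : F.n0 ≤ m) : FM A (F.gr m) where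
  V b := (F.fib b).gr m
  pi b :=
    { toFun := fun z => ⟨F.sp b z, F.sp_gr b m z z.2⟩
      map_zero' := Subtype.ext (map_zero _)
      map_add' := fun z z' => Subtype.ext (map_add _ _ _) }
  pi_smul b a z := by
    apply Subtype.ext
    change F.sp b (a • (z : F.R)) = b a • F.sp b z
    rw [Algebra.smul_def, map_mul, F.sp_alg, ← Algebra.smul_def]
  surj b := by
    rintro ⟨y, hy⟩
    obtain ⟨x, hx, hxy⟩ := F.sp_surj b m hm y hy
    exact ⟨⟨x, hx⟩, Subtype.ext hxy⟩
  ker b := by
    rintro ⟨x, hx⟩ h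
    refine mem_smul_top hx (F.sp_ker b m hm x hx ?_)
    exact congrArg Subtype.val h

/-- the family of linear combinations of products -/
noncomputable def lc {R A : Type} [CommRing R] [CommRing A] [Algebra A R] (N : Submodule A R)
    (z : J → R) (hz : ∀ p, z p ∈ N) : (J → A) →ₗ[A] N where
  toFun c := ⟨∑ p, c p • z p, Submodule.sum_mem _ (fun p _ => Submodule.smul_mem _ _ (hz p))⟩
  map_add' c c' := by
    apply Subtype.ext
    simp [add_smul, Finset.sum_add_distrib]
  map_smul' a c := by
    apply Subtype.ext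
    simp [mul_smul, Finset.smul_sum]

theorem lc_coe {R A : Type} [CommRing R] [CommRing A] [Algebra A R] (N : Submodule A R)
    (z : J → R) (hz : ∀ p, z p ∈ N) (c : J → A) : (lc N z hz c : R) = ∑ p, c p • z p := rfl

end

theorem st_REL (hRANK : ST_RANK) : ST_REL := by
  intro g d X E A _ _ _ _ F b0 S hSec
  obtain ⟨L⟩ := hSec
  set m : ℕ := (L.n + 1) + (L.n + 1) with hm
  have hnm : F.n0 ≤ m := by have := L.hn; omega
  have : Module.Finite A (F.gr m) := F.fin m hnm
  have : Module.Projective A (F.gr m) := F.proj m hnm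
  have hyy : ∀ p : J, L.y p.1.1 * L.y p.1.2 ∈ F.gr m := fun p =>
    SetLike.mul_mem_graded (L.hy _) (L.hy _)
  have hyb : ∀ (b : A →ₐ[ℂ] ℂ) (p : J), F.sp b (L.y p.1.1) * F.sp b (L.y p.1.2) ∈
      (F.fib b).gr m := fun b p => by
    have := F.sp_gr b m _ (hyy p)
    rwa [map_mul] at this
  let α : (J → A) →ₗ[A] F.gr m := lc (F.gr m) (fun p => L.y p.1.1 * L.y p.1.2) hyy
  let αb : ∀ b : A →ₐ[ℂ] ℂ, (J → ℂ) →ₗ[ℂ] (F.fib b).gr m := fun b =>
    lc ((F.fib b).gr m) (fun p => F.sp b (L.y p.1.1) * F.sp b (L.y p.1.2)) (hyb b)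
  have hcomm : ∀ (b : A →ₐ[ℂ] ℂ) (p : J → A),
      αb b ((fmJ A).pi b p) = (fmG F m hnm).pi b (α p) := by
    intro b c
    apply Subtype.ext
    change ∑ p, (b (c p)) • (F.sp b (L.y p.1.1) * F.sp b (L.y p.1.2)) =
      F.sp b (∑ p, c p • (L.y p.1.1 * L.y p.1.2))
    rw [map_sum]
    refine Finset.sum_congr rfl (fun p _ => ?_)
    rw [Algebra.smul_def, Algebra.smul_def, map_mul, map_mul, F.sp_alg]
  -- the kernel at `b0`
  have hker0 : LinearMap.ker (αb b0) = Submodule.span ℂ (Set.range E.q) := by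
    ext c
    rw [← E.q_rel c, LinearMap.mem_ker]
    let z : F.R := ∑ p, (algebraMap ℂ A (c p)) • (L.y p.1.1 * L.y p.1.2)
    have hz : z ∈ F.gr m := Submodule.sum_mem _ (fun p _ => Submodule.smul_mem _ _ (hyy p))
    have e1 : F.sp b0 z = ∑ p, c p • (F.sp b0 (L.y p.1.1) * F.sp b0 (L.y p.1.2)) := by
      simp only [z]
      rw [map_sum]
      refine Finset.sum_congr rfl (fun p _ => ?_)
      rw [Algebra.smul_def, map_mul, map_mul, F.sp_alg, Algebra.smul_def]
      simp
    have e2 : S.sp z = aeval E.x (quad c) * S.sp L.u ^ 2 := by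
      simp only [z]
      rw [map_sum, quad, map_sum, Finset.sum_mul]
      refine Finset.sum_congr rfl (fun p _ => ?_)
      rw [Algebra.smul_def, map_mul, map_mul, S.alg, map_mul, map_mul, aeval_C, aeval_X, aeval_X,
        L.y0, L.y0]
      simp only [AlgHom.commutes, Algebra.algebraMap_self, RingHom.id_apply]
      ring
    have e3 : F.sp b0 z = 0 ↔ S.sp z = 0 := by
      constructor
      · intro h
        exact at_smul_zero S le_rfl (F.sp_ker b0 m hnm z hz h)
      · intro h
        exact sp_smul_zero F b0 le_rfl (S.ker m hnm z hz h)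
    have e4 : αb b0 c = 0 ↔ F.sp b0 z = 0 := by
      rw [e1]
      constructor
      · intro h
        exact congrArg Subtype.val h
      · intro h
        exact Subtype.ext h
    rw [e4, e3, e2]
    constructor
    · intro h
      rcases mul_eq_zero.1 h with h | h
      · exact h
      · exact absurd (pow_eq_zero_iff (two_ne_zero) |>.1 h) L.u0
    · intro h
      rw [h, zero_mul]
  have hfin0 : Module.finrank ℂ (LinearMap.ker (αb b0)) = 10 := by
    rw [hker0, finrank_span_eq_card E.q_ind]
    rfl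
  -- kernels near `b0`
  have hnear : ∀ b : A →ₐ[ℂ] ℂ, b L.f ≠ 0 →
      Module.finrank ℂ (LinearMap.ker (αb b0)) ≤ Module.finrank ℂ (LinearMap.ker (αb b)) := by
    intro b hb
    rw [hfin0]
    obtain ⟨_, ξ, hξ, _, hξy⟩ := L.near b hb
    obtain ⟨hf2, h68⟩ := L.two b hb
    let β : (J → ℂ) →ₗ[ℂ] (F.fib b).gr 2 := lc ((F.fib b).gr 2) (fun p => ξ p.1.1 * ξ p.1.2)
      (fun p => SetLike.mul_mem_graded (hξ _) (hξ _))
    have h1 : LinearMap.ker β ≤ LinearMap.ker (αb b) := by
      intro c hc
      rw [LinearMap.mem_ker] at hc ⊢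
      have h2 : ∑ p, c p • (ξ p.1.1 * ξ p.1.2) = 0 := congrArg Subtype.val hc
      apply Subtype.ext
      change ∑ p, c p • (F.sp b (L.y p.1.1) * F.sp b (L.y p.1.2)) = 0
      have h3 : ∀ p : J, c p • (F.sp b (L.y p.1.1) * F.sp b (L.y p.1.2)) =
          (c p • (ξ p.1.1 * ξ p.1.2)) * (F.sp b L.u * F.sp b L.u) := by
        intro p
        rw [hξy, hξy, smul_mul_assoc]
        congr 1
        ring
      simp only [h3]
      rw [← Finset.sum_mul, h2, zero_mul]
    have h4 := LinearMap.finrank_range_add_finrank_ker β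
    have h5 : Module.finrank ℂ (LinearMap.range β) ≤ 68 := (Submodule.finrank_le _).trans h68
    have h6 : Module.finrank ℂ (J → ℂ) = 78 := by
      rw [Module.finrank_fintype_fun_eq_card, cardJ]
    have h7 : Module.finrank ℂ (LinearMap.ker β) ≤ Module.finrank ℂ (LinearMap.ker (αb b)) :=
      Submodule.finrank_mono h1
    omega
  obtain ⟨_, V, _, hV, hV0, _⟩ := hRANK A (J → A) (F.gr m) (fmJ A) (fmG F m hnm) α αb hcomm b0
    L.f L.hf hnear 10 E.q E.q_ind hker0.symm
  refine ⟨{ L with
    θ := V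
    θ0 := fun j p => congrFun (hV0 j) p
    rel := fun j => ?_ }⟩
  have h := congrArg Subtype.val (hV j)
  have h2 : ∑ p, V j p • (L.y p.1.1 * L.y p.1.2) = 0 := h
  simp only [Algebra.smul_def] at h2
  exact h2

end Pool.Agent.Helper77.RG
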